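import Pool.Agent.U849.DG.Def
import Pool.Agent.R401.DS
import Pool.Agent.R401.Eng

/-!
# Number fields: Frobenius elements in cosets, and bounds for the image of a Galois representation
-/

set_option autoImplicit false
set_option maxHeartbeats 400000

namespace Pool.Agent.U849.DG

open NumberField Filter Topology IsDedekindDomain Polynomial Module
open Pool.Agent.W401.Cheb Pool.Agent.W569.FM Pool.Agent.R401.Img Pool.Agent.R401 Pool.Agent

variable {F : Type} [Field F] [NumberField F]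

theorem densityZero_iff {E : Set (HeightOneSpectrum (𝓞 F))} :
    DensityZero E ↔ Tendsto (dens fun v => v ∈ E) atTop (𝓝 0) := Iff.rfl

theorem finite_norm_le (F : Type) [Field F] [NumberField F] (N : ℕ) :
    {v : HeightOneSpectrum (𝓞 F) | Ideal.absNorm v.asIdeal ≤ N}.Finite :=
  Pool.Agent.W352.ChAbs.finite_le (K := F) N

theorem dens_union (A B : Set (HeightOneSpectrum (𝓞 F))) (N : ℕ) :
    dens (fun v => v ∈ A ∪ B) N ≤ dens (fun v => v ∈ A) N + dens (fun v => v ∈ B) N := by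
  unfold dens
  rw [← add_div]
  apply div_le_div_of_nonneg_right _ (Nat.cast_nonneg _)
  have h9 : ∀ X : Set (HeightOneSpectrum (𝓞 F)),
      Nat.card {v : HeightOneSpectrum (𝓞 F) // Ideal.absNorm v.asIdeal ≤ N ∧ v ∈ X} =
      ({v : HeightOneSpectrum (𝓞 F) | Ideal.absNorm v.asIdeal ≤ N ∧ v ∈ X}).ncard := fun X => rfl
  rw [h9, h9, h9]
  have h10 : {v : HeightOneSpectrum (𝓞 F) | Ideal.absNorm v.asIdeal ≤ N ∧ v ∈ A ∪ B} ⊆
      {v : HeightOneSpectrum (𝓞 F) | Ideal.absNorm v.asIdeal ≤ N ∧ v ∈ A} ∪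
      {v : HeightOneSpectrum (𝓞 F) | Ideal.absNorm v.asIdeal ≤ N ∧ v ∈ B} := by
    rintro p ⟨h1, h2 | h2⟩
    · exact Or.inl ⟨h1, h2⟩
    · exact Or.inr ⟨h1, h2⟩
  have hf : ∀ X : Set (HeightOneSpectrum (𝓞 F)),
      {v : HeightOneSpectrum (𝓞 F) | Ideal.absNorm v.asIdeal ≤ N ∧ v ∈ X}.Finite := fun X =>
    (finite_norm_le F N).subset fun _ h => h.1
  exact_mod_cast (Set.ncard_le_ncard h10 ((hf A).union (hf B))).trans (Set.ncard_union_le _ _)

theorem dens_nonneg (P : HeightOneSpectrum (𝓞 F) → Prop) (N : ℕ) : 0 ≤ dens P N := by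
  unfold dens
  positivity

theorem DensityZero.union {A B : Set (HeightOneSpectrum (𝓞 F))} (hA : DensityZero A) (hB : DensityZero B) :
    DensityZero (A ∪ B) := by
  have h1 : Tendsto (fun N => dens (fun v => v ∈ A) N + dens (fun v => v ∈ B) N) atTop (𝓝 0) := by
    have := (densityZero_iff.1 hA).add (densityZero_iff.1 hB)
    rwa [add_zero] at this
  exact squeeze_zero (fun N => dens_nonneg _ N) (fun N => dens_union A B N) h1

theorem DensityZero.of_finite {A : Set (HeightOneSpectrum (𝓞 F))} (hA : A.Finite) : DensityZero A := by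
  have h1 : Tendsto (fun N : ℕ => (A.ncard : ℝ) / (Nat.primeCounting N : ℝ)) atTop (𝓝 0) :=
    tendsto_const_nhds.div_atTop (tendsto_natCast_atTop_atTop.comp Nat.tendsto_primeCounting)
  refine squeeze_zero (fun N => dens_nonneg (fun v => v ∈ A) N) (fun N => ?_) h1
  apply div_le_div_of_nonneg_right _ (Nat.cast_nonneg _)
  have h9 : Nat.card {v : HeightOneSpectrum (𝓞 F) // Ideal.absNorm v.asIdeal ≤ N ∧ v ∈ A} =
      ({v : HeightOneSpectrum (𝓞 F) | Ideal.absNorm v.asIdeal ≤ N ∧ v ∈ A}).ncard := rfl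
  rw [h9]
  have h10 : {v : HeightOneSpectrum (𝓞 F) | Ideal.absNorm v.asIdeal ≤ N ∧ v ∈ A} ⊆ A := fun v hv => hv.2
  exact_mod_cast Set.ncard_le_ncard h10 hA

/-- a set of density zero does not matter -/
theorem freq_union {B : Set (HeightOneSpectrum (𝓞 F))} (hB : DensityZero B) (X : Set (HeightOneSpectrum (𝓞 F)))
    {ε : ℝ} (hε : 0 < ε) (h : ∃ᶠ N : ℕ in atTop, dens (fun v => v ∈ X) N ≤ ε / 2) :
    ∃ᶠ N : ℕ in atTop, dens (fun v => v ∈ B ∪ X) N ≤ ε := by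
  have h0 : ∀ᶠ N in atTop, dens (fun v => v ∈ B) N < ε / 2 :=
    (densityZero_iff.1 hB).eventually (gt_mem_nhds (half_pos hε))
  refine (h.and_eventually h0).mono ?_
  rintro N ⟨h1, h2⟩
  have := dens_union B X N
  linarith

/-- the finite primes above `ℓ` -/
theorem finite_primesAbove {ℓ : ℕ} (hℓ : ℓ ≠ 0) : (PrimesAbove F ℓ).Finite := by
  have h0 : Ideal.span {(ℓ : 𝓞 F)} ≠ 0 := by
    rw [ne_eq, Ideal.zero_eq_bot, Ideal.span_singleton_eq_bot]
    exact Nat.cast_ne_zero.2 hℓ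
  refine (Ideal.finite_factors h0).subset fun v hv => ?_
  change v.asIdeal ∣ Ideal.span {(ℓ : 𝓞 F)}
  rw [Ideal.dvd_span_singleton]
  exact hv

/-- large primes are not in `v` -/
theorem notMem_primesAbove {ℓ : ℕ} (hℓ : ℓ.Prime) {v : HeightOneSpectrum (𝓞 F)}
    (h : Ideal.absNorm v.asIdeal < ℓ) : v ∉ PrimesAbove F ℓ := by
  intro hv
  have h0 : Ideal.absNorm v.asIdeal ≠ 0 := by
    rw [ne_eq, Ideal.absNorm_eq_zero_iff]
    exact v.ne_bot
  have h1 : Nat.Coprime ℓ (Ideal.absNorm v.asIdeal) := by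
    rw [hℓ.coprime_iff_not_dvd]
    intro h2
    exact absurd (Nat.le_of_dvd (Nat.pos_of_ne_zero h0) h2) (by omega)
  obtain ⟨a, b, hab⟩ := Nat.isCoprime_iff_coprime.2 h1
  have h2 : (1 : 𝓞 F) ∈ v.asIdeal := by
    have h3 := congrArg (fun z : ℤ => (z : 𝓞 F)) hab
    push_cast at h3
    rw [← h3]
    exact Ideal.add_mem _ (Ideal.mul_mem_left _ _ hv)
      (Ideal.mul_mem_left _ _ (by exact_mod_cast Ideal.absNorm_mem v.asIdeal))
  exact v.isPrime.ne_top ((Ideal.eq_top_iff_one _).2 h2)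

/-- every coset of an open normal subgroup contains a Frobenius element at a prime outside of a
set of density zero -/
theorem exists_frob (U : Subgroup (GK F)) [U.Normal] (hU : IsOpen (U : Set (GK F)))
    {B : Set (HeightOneSpectrum (𝓞 F))} (hB : DensityZero B) (g : GK F) :
    ∃ (v : HeightOneSpectrum (𝓞 F)) (P : Ideal (ZBar F)) (σ : GK F), v ∉ B ∧ Above v P ∧
      FrobAt (Ideal.absNorm v.asIdeal) P σ ∧ g⁻¹ * σ ∈ U := by
  classical
  by_contra hcon
  push Not at hcon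
  set C : Set (GK F) := {σ | ∃ τ : GK F, (τ * g * τ⁻¹)⁻¹ * σ ∈ U} with hCdef
  have hC : ∀ σ ∈ C, ∀ τ : GK F, τ * σ * τ⁻¹ ∈ C := by
    rintro σ ⟨α, hα⟩ τ
    refine ⟨τ * α, ?_⟩
    have h1 : (τ * α * g * (τ * α)⁻¹)⁻¹ * (τ * σ * τ⁻¹) = τ * ((α * g * α⁻¹)⁻¹ * σ) * τ⁻¹ := by
      group
    rw [h1]
    exact Subgroup.Normal.conj_mem inferInstance _ hα τ
  have hCU : ∀ σ ∈ C, ∀ u ∈ U, σ * u ∈ C := by
    rintro σ ⟨α, hα⟩ u hu
    refine ⟨α, ?_⟩
    rw [← mul_assoc]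
    exact U.mul_mem hα hu
  have hX : ∀ v : HeightOneSpectrum (𝓞 F), (∃ σ ∈ C, IsFrob v σ) → v ∈ B := by
    rintro v ⟨σ, ⟨α, hα⟩, P, hP, hPv, hσ⟩
    by_contra hpB
    -- conjugate
    set P' : Ideal (ZBar F) := P.comap (MulSemiringAction.toRingHom (GK F) (ZBar F) α) with hP'def
    have hmem : ∀ x, x ∈ P' ↔ α • x ∈ P := fun x => Iff.rfl
    have hP' : P'.IsMaximal := by
      apply Ideal.comap_isMaximal_of_surjective
      intro y
      exact ⟨α⁻¹ • y, by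
        change α • α⁻¹ • y = y
        rw [smul_inv_smul]⟩
    have hpP' : P'.comap (algebraMap (𝓞 F) (ZBar F)) = v.asIdeal := by
      rw [← hPv]
      ext x
      have : α • (algebraMap (𝓞 F) (ZBar F) x) = algebraMap (𝓞 F) (ZBar F) x := by
        apply RingOfIntegers.ext
        exact α.commutes (x : F)
      change α • (algebraMap (𝓞 F) (ZBar F) x) ∈ P ↔ algebraMap (𝓞 F) (ZBar F) x ∈ P
      rw [this]
    have hF : FrobAt (Ideal.absNorm v.asIdeal) P' (α⁻¹ * σ * α) := by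
      intro x
      rw [hmem, smul_sub, smul_pow', smul_smul]
      have h1 := hσ (α • x)
      rw [smul_smul] at h1
      have h2 : α * (α⁻¹ * σ * α) = σ * α := by group
      rw [h2]
      exact h1
    refine hcon v P' (α⁻¹ * σ * α) hpB ⟨hP', hpP'⟩ hF ?_
    have h1 : g⁻¹ * (α⁻¹ * σ * α) = α⁻¹ * ((α * g * α⁻¹)⁻¹ * σ) * α⁻¹⁻¹ := by group
    rw [h1]
    exact Subgroup.Normal.conj_mem inferInstance _ hα α⁻¹
  have hfin : Finite (GK F ⧸ U) := Subgroup.quotient_finite_of_isOpen U hU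
  have h6 : (0 : ℝ) < Nat.card (GK F ⧸ U) := by exact_mod_cast Nat.card_pos
  have h1 := Pool.Agent.Y142.chebK F U hU C hC hCU
  have h2 := le_of_tendsto_of_tendsto' h1 (densityZero_iff.1 hB) fun N => Eng.dens_le hX N
  have h5 : 0 < ((QuotientGroup.mk : GK F → GK F ⧸ U) '' C).ncard := by
    rw [Set.ncard_pos (Set.toFinite _)]
    refine ⟨_, g, ⟨1, ?_⟩, rfl⟩
    have : (1 * g * 1⁻¹)⁻¹ * g = 1 := by group
    rw [this]
    exact U.one_mem
  have h7 : (0 : ℝ) < (((QuotientGroup.mk : GK F → GK F ⧸ U) '' C).ncard : ℝ) := by exact_mod_cast h5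
  have h8 := div_pos h7 h6
  linarith

section cosets

variable {k : Type*} [Field k] {n : ℕ}

theorem exists_reps (ρ : GK F →* GL (Fin n) k) {m : ℕ} (e : Fin m → GK F)
    (hsep : ∀ a b : GK F, (∀ j, (mt ρ (a * e j)).trace = (mt ρ (b * e j)).trace) → ρ a = ρ b)
    {Y : Set k} (hY : Y.Finite) :
    ∃ A : Finset (GK F), A.card ≤ Y.ncard ^ m ∧
      ∀ g : GK F, (∀ j, (mt ρ (g * (e j)⁻¹)⁻¹).trace ∈ Y) → ∃ a ∈ A, a⁻¹ * g ∈ ρ.ker := by
  classical
  have hYf : Finite Y := hY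
  have hYF : Fintype Y := Fintype.ofFinite Y
  set S : Set (Fin m → Y) := {y | ∃ g : GK F, ∀ j, (mt ρ (g * (e j)⁻¹)⁻¹).trace = y j} with hS
  choose! r hr using (fun (y : Fin m → Y) (hy : y ∈ S) => hy)
  refine ⟨(Finset.univ.filter (fun y => y ∈ S)).image r, ?_, fun g hg => ?_⟩
  · refine Finset.card_image_le.trans ((Finset.card_le_univ _).trans ?_)
    rw [Fintype.card_fun, Fintype.card_fin, ← Nat.card_eq_fintype_card, Nat.card_coe_set_eq]
  · set y : Fin m → Y := fun j => ⟨_, hg j⟩ with hy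
    have hyS : y ∈ S := ⟨g, fun j => rfl⟩
    refine ⟨r y, Finset.mem_image_of_mem _ (Finset.mem_filter.2 ⟨Finset.mem_univ _, hyS⟩), ?_⟩
    have h1 : ρ (r y)⁻¹ = ρ g⁻¹ := by
      apply hsep
      intro j
      have h2 : (mt ρ (r y * (e j)⁻¹)⁻¹).trace = (mt ρ (g * (e j)⁻¹)⁻¹).trace :=
        (hr y hyS j).trans rfl
      rw [mul_inv_rev, mul_inv_rev, inv_inv] at h2
      rw [mt_mul, Matrix.trace_mul_comm, ← mt_mul, h2, mt_mul, Matrix.trace_mul_comm, ← mt_mul]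
    rw [MonoidHom.mem_ker, map_mul, h1, map_inv, inv_mul_cancel]

theorem good_conj (ρ : GK F →* GL (Fin n) k) (Y : Set k) :
    ∀ g ∈ {g : GK F | (mt ρ g⁻¹).trace ∈ Y}, ∀ x : GK F,
      x * g * x⁻¹ ∈ {g : GK F | (mt ρ g⁻¹).trace ∈ Y} := by
  intro g hg x
  change (mt ρ (x * g * x⁻¹)⁻¹).trace ∈ Y
  have h2 : (x * g * x⁻¹)⁻¹ = x * (g⁻¹ * x⁻¹) := by group
  rw [h2, mt_mul, Matrix.trace_mul_comm, ← mt_mul, inv_mul_cancel_right]
  exact hg

theorem exists_sep (hk : ∀ m : ℕ, 0 < m → m ≤ n → (m : k) ≠ 0) (ρ : GK F →* GL (Fin n) k)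
    (hss : SS ρ) : ∃ (m : ℕ) (e : Fin m → GK F), m ≤ n ^ 2 ∧
      ∀ a b : GK F, (∀ j, (mt ρ (a * e j)).trace = (mt ρ (b * e j)).trace) → ρ a = ρ b := by
  have hk' : ∀ m : ℕ, 0 < m → m ≤ finrank k (Fin n → k) → (m : k) ≠ 0 := by
    intro m h1 h2
    rw [finrank_fin_fun] at h2
    exact hk m h1 h2
  obtain ⟨m, e, hm, -, hsep⟩ := Burn.exists_family hk' (act ρ) (fun W hW => hss.act W hW)
  rw [finrank_fin_fun] at hm
  refine ⟨m, e, hm, fun a b h => act_inj (hsep a b fun j => ?_)⟩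
  rw [trace_act, trace_act]
  exact h j

theorem dens_le_of {Good : Set (GK F)} {X : Set (HeightOneSpectrum (𝓞 F))}
    (hX : ∀ v, v ∉ X → ∀ P : Ideal (ZBar F), Above v P → ∀ g, FrobAt (Ideal.absNorm v.asIdeal) P g → g ∈ Good)
    (N : ℕ) : dens (fun v : HeightOneSpectrum (𝓞 F) => ∃ g, IsFrob v g ∧ g ∉ Good) N ≤
      dens (fun v => v ∈ X) N := by
  refine Eng.dens_le ?_ N
  rintro v ⟨g, ⟨P, hP, hPv, hg⟩, hgG⟩
  by_contra hvX
  exact hgG (hX v hvX P ⟨hP, hPv⟩ g hg)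

/-- **Bounded image**, open kernel. -/
theorem bound (hk : ∀ m : ℕ, 0 < m → m ≤ n → (m : k) ≠ 0) (ρ : GK F →* GL (Fin n) k)
    (hker : IsOpen (ρ.ker : Set (GK F))) (hss : SS ρ) {Y : Set k} (hY : Y.Finite)
    (X : Set (HeightOneSpectrum (𝓞 F)))
    (hX : ∀ v, v ∉ X → ∀ P : Ideal (ZBar F), Above v P →
      ∀ g, FrobAt (Ideal.absNorm v.asIdeal) P g → (mt ρ g⁻¹).trace ∈ Y) {θ : ℝ} (hθ0 : 0 ≤ θ)
    (hε : ∃ᶠ N : ℕ in atTop, dens (fun v => v ∈ X) N ≤ θ) :
    (1 - n ^ 2 * θ) * Nat.card (GK F ⧸ ρ.ker) ≤ (Y.ncard + 1) ^ (n ^ 2) := by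
  classical
  obtain ⟨m, e, hm, hsep⟩ := exists_sep hk ρ hss
  obtain ⟨A, hA, hreps⟩ := exists_reps ρ e hsep hY
  set Good : Set (GK F) := {g : GK F | (mt ρ g⁻¹).trace ∈ Y} with hGood
  have hcl : IsClosed Good := by
    rw [← isOpen_compl_iff]
    rw [isOpen_iff_mem_nhds]
    intro x hx
    have h1 : (fun g => x⁻¹ * g) ⁻¹' (ρ.ker : Set (GK F)) ∈ 𝓝 x := by
      apply (hker.preimage (continuous_const_mul _)).mem_nhds
      change x⁻¹ * x ∈ ρ.ker
      rw [inv_mul_cancel]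
      exact one_mem _
    refine Filter.mem_of_superset h1 fun g hg => ?_
    have h2 : x⁻¹ * g ∈ ρ.ker := hg
    rw [MonoidHom.mem_ker, map_mul, map_inv, inv_mul_eq_one] at h2
    intro hgG
    apply hx
    change (mt ρ x⁻¹).trace ∈ Y
    have h3 : mt ρ x⁻¹ = mt ρ g⁻¹ := by
      unfold Img.mt
      rw [map_inv, map_inv, h2]
    rw [h3]
    exact hgG
  have h1 := Eng.engine Good hcl (good_conj ρ Y) (θ := θ)
    (hε.mono fun N hN => (dens_le_of hX N).trans hN) (fun j => (e j)⁻¹) ρ.ker hker A hreps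
  have h2 : (m : ℝ) ≤ n ^ 2 := by exact_mod_cast hm
  have h3 : (ρ.ker.index : ℝ) = Nat.card (GK F ⧸ ρ.ker) := rfl
  rw [h3] at h1
  have h4 : (A.card : ℝ) ≤ (Y.ncard + 1) ^ (n ^ 2) := by
    have h5 : A.card ≤ (Y.ncard + 1) ^ (n ^ 2) :=
      hA.trans ((Nat.pow_le_pow_left (Nat.le_succ _) _).trans
        (Nat.pow_le_pow_right (Nat.succ_pos _) hm))
    exact_mod_cast h5
  refine le_trans ?_ (h1.trans h4)
  apply mul_le_mul_of_nonneg_right _ (Nat.cast_nonneg _)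
  have := mul_le_mul_of_nonneg_right h2 hθ0
  linarith

/-- **Finite image** of a continuous representation in characteristic zero. -/
theorem open_ker [TopologicalSpace k] [IsTopologicalRing k] [T2Space k] [CharZero k]
    (ρ : GK F →* GL (Fin n) k)
    (hρ : Continuous ρ) (hss : SS ρ) {Y : Set k} (hY : Y.Finite) (X : Set (HeightOneSpectrum (𝓞 F)))
    (hX : ∀ v, v ∉ X → ∀ P : Ideal (ZBar F), Above v P →
      ∀ g, FrobAt (Ideal.absNorm v.asIdeal) P g → (mt ρ g⁻¹).trace ∈ Y) {θ : ℝ} (hθ0 : 0 ≤ θ)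
    (hθ : n ^ 2 * θ < 1)
    (hε : ∃ᶠ N : ℕ in atTop, dens (fun v => v ∈ X) N ≤ θ) :
    IsOpen (ρ.ker : Set (GK F)) := by
  classical
  obtain ⟨m, e, hm, hsep⟩ := exists_sep (fun m h1 _ => Nat.cast_ne_zero.2 h1.ne') ρ hss
  obtain ⟨A, hA, hreps⟩ := exists_reps ρ e hsep hY
  have hcm : Continuous fun g => mt ρ g := Units.continuous_val.comp hρ
  have hcl : IsClosed {g : GK F | (mt ρ g⁻¹).trace ∈ Y} := by
    have h1 : Continuous fun g : GK F => (mt ρ g⁻¹).trace :=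
      (continuous_id.matrix_trace).comp (hcm.comp continuous_inv)
    exact hY.isClosed.preimage h1
  have hkcl : IsClosed (ρ.ker : Set (GK F)) := by
    have h1 : (ρ.ker : Set (GK F)) = (fun g => mt ρ g) ⁻¹' {1} := by
      ext g
      constructor
      · intro h
        have h2 : ρ g = 1 := h
        change mt ρ g = 1
        unfold Img.mt
        rw [h2, Units.val_one]
      · intro h
        exact Units.ext (show ((ρ g : GL (Fin n) k) : Matrix (Fin n) (Fin n) k) = 1 from h)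
    rw [h1]
    exact isClosed_singleton.preimage hcm
  have h2 : (m : ℝ) ≤ n ^ 2 := by exact_mod_cast hm
  exact Eng.isOpen_of_cosets {g : GK F | (mt ρ g⁻¹).trace ∈ Y} hcl (good_conj ρ Y) (θ := θ)
    (hε.mono fun N hN => (dens_le_of hX N).trans hN)
    (lt_of_le_of_lt (mul_le_mul_of_nonneg_right h2 hθ0) hθ) (fun j => (e j)⁻¹) ρ.ker hkcl A hreps

end cosets

section rs

variable {K : Type*} [Field K] [NumberField K]

/-- Mean squares bounded for arbitrarily large `x`: outside of a set of small lower density there are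
finitely many traces. -/
theorem exists_finite (B : Set (HeightOneSpectrum (𝓞 F))) (t : HeightOneSpectrum (𝓞 F) → 𝓞 K) {C : ℝ}
    (h : ∃ᶠ x : ℕ in atTop, ∀ σ : K →+* ℂ,
      ∑ᶠ v ∈ {v : HeightOneSpectrum (𝓞 F) | Ideal.absNorm v.asIdeal ≤ x ∧ v ∉ B}, ‖σ (t v)‖ ^ 2 ≤
        C * Nat.primeCounting x) {ε : ℝ} (hε : 0 < ε) :
    ∃ Y : Set (𝓞 K), Y.Finite ∧
      ∃ᶠ x : ℕ in atTop, dens (fun v => v ∈ {v : HeightOneSpectrum (𝓞 F) | v ∉ B ∧ t v ∉ Y}) x ≤ ε := by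
  classical
  set D : ℝ := Fintype.card (K →+* ℂ) * |C| + 1 with hD
  have hD0 : 0 < D := by positivity
  set M : ℝ := Real.sqrt (D / ε) with hM
  have hM0 : 0 ≤ M := Real.sqrt_nonneg _
  have hM2 : M ^ 2 = D / ε := Real.sq_sqrt (by positivity)
  refine ⟨{y : 𝓞 K | ∀ σ : K →+* ℂ, ‖σ y‖ ≤ M}, ?_,
    (h.and_eventually (Nat.tendsto_primeCounting.eventually_gt_atTop 0)).mono fun x hx => ?_⟩
  · have h1 := Embeddings.finite_of_norm_le K ℂ M
    refine Set.Finite.of_finite_image (f := fun y : 𝓞 K => (y : K)) (h1.subset ?_)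
      (fun a _ b _ hab => RingOfIntegers.ext hab)
    rintro _ ⟨y, hy, rfl⟩
    exact ⟨y.isIntegral_coe, hy⟩
  · obtain ⟨hx, hx0⟩ := hx
    have hxf : {v : HeightOneSpectrum (𝓞 F) | Ideal.absNorm v.asIdeal ≤ x ∧ v ∉ B}.Finite :=
      (finite_norm_le F x).subset fun _ h => h.1
    set s : Finset (HeightOneSpectrum (𝓞 F)) := hxf.toFinset with hs
    have hsum : ∀ σ : K →+* ℂ, ∑ p ∈ s, ‖σ (t p)‖ ^ 2 ≤ |C| * Nat.primeCounting x := by
      intro σ
      have h1 := hx σ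
      rw [finsum_mem_eq_finite_toFinset_sum _ hxf] at h1
      exact h1.trans (mul_le_mul_of_nonneg_right (le_abs_self _) (Nat.cast_nonneg _))
    have htot : ∑ p ∈ s, ∑ σ : K →+* ℂ, ‖σ (t p)‖ ^ 2 ≤ D * Nat.primeCounting x := by
      rw [Finset.sum_comm]
      refine (Finset.sum_le_sum fun σ _ => hsum σ).trans ?_
      rw [Finset.sum_const, Finset.card_univ, nsmul_eq_mul, ← mul_assoc]
      apply mul_le_mul_of_nonneg_right _ (Nat.cast_nonneg _)
      rw [hD]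
      linarith
    set s' : Finset (HeightOneSpectrum (𝓞 F)) := s.filter fun p => ¬ ∀ σ : K →+* ℂ, ‖σ (t p)‖ ≤ M with hs'
    have hcnt : Nat.card {v : HeightOneSpectrum (𝓞 F) // Ideal.absNorm v.asIdeal ≤ x ∧
        v ∈ {v : HeightOneSpectrum (𝓞 F) | v ∉ B ∧ t v ∉ {y : 𝓞 K | ∀ σ : K →+* ℂ, ‖σ y‖ ≤ M}}} = s'.card := by
      refine Nat.subtype_card s' fun p => ?_
      rw [hs', Finset.mem_filter, hs, Set.Finite.mem_toFinset]
      simp only [Set.mem_ofPred_eq]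
      tauto
    unfold dens
    rw [hcnt]
    have h1 : (s'.card : ℝ) * M ^ 2 ≤ D * Nat.primeCounting x := by
      refine le_trans ?_ htot
      rw [← nsmul_eq_mul, ← Finset.sum_const]
      refine (Finset.sum_le_sum (fun p hp => ?_)).trans
        (Finset.sum_le_sum_of_subset_of_nonneg (Finset.filter_subset _ _)
          fun _ _ _ => Finset.sum_nonneg fun _ _ => by positivity)
      rw [hs', Finset.mem_filter] at hp
      obtain ⟨σ, hσ⟩ := not_forall.1 hp.2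
      rw [not_le] at hσ
      refine le_trans ?_ (Finset.single_le_sum (f := fun σ : K →+* ℂ => ‖σ (t p)‖ ^ 2)
          (fun _ _ => by positivity) (Finset.mem_univ σ))
      exact pow_le_pow_left₀ hM0 hσ.le 2
    rw [hM2] at h1
    have h3 : (s'.card : ℝ) * (D / ε) = D * (s'.card / ε) := by ring
    rw [h3] at h1
    have h4 := le_of_mul_le_mul_left h1 hD0
    rw [div_le_iff₀ hε] at h4
    have h5 : (0 : ℝ) < Nat.primeCounting x := by exact_mod_cast hx0
    rw [div_le_iff₀ h5]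
    linarith

end rs

end Pool.Agent.U849.DG
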