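import Mathlib

/-!
# Galois representations with values in L-groups over number fields: the definitions used in the statements
-/

set_option autoImplicit false

namespace Pool.Agent.U849.DG

open NumberField Filter Topology IsDedekindDomain

/-- The absolute Galois group of the field `F`. -/
abbrev Gam (F : Type) [Field F] : Type := Gal(AlgebraicClosure F/F)

/-- The ring of all algebraic integers. -/
abbrev ZBar (F : Type) [Field F] : Type := 𝓞 (AlgebraicClosure F)

/-- The polynomials with integral coefficients in the entries of an `n × n` matrix. -/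
abbrev Poly (n : ℕ) : Type := MvPolynomial (Fin n × Fin n) ℤ

/-- The value of such a polynomial at a matrix. -/
noncomputable def val {R : Type*} [CommRing R] {n : ℕ} (M : Matrix (Fin n) (Fin n) R) (Q : Poly n) : R :=
  MvPolynomial.aeval (fun x : Fin n × Fin n => M x.1 x.2) Q

/-- The zeros in `GL_n(k)` of a set of polynomials. -/
def Zeros {n : ℕ} (I : Set (Poly n)) (k : Type) [Field k] : Set (GL (Fin n) k) :=
  {g | ∀ Q ∈ I, val (g : Matrix (Fin n) (Fin n) k) Q = 0}

/-- **L-groups.** A group scheme, closed in `GL_n` over the integers, which is the disjoint union of cosets indexed by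
the elements of a group `Δ`: `eqs τ` are equations of the coset of `τ`. (For the L-group of a connected reductive group
`G` over a number field `F` which splits over the Galois extension `F'`, the group `Δ` is `Gal(F'/F)`, the coset of `1` is
the dual group, and the coset of `τ` is its product with `τ`.) -/
structure LGroup (Δ : Type) [Group Δ] (n : ℕ) where
  /-- the equations of the coset of `τ` -/
  eqs : Δ → Set (Poly n)
  one_mem : ∀ (k : Type) [Field k], (1 : GL (Fin n) k) ∈ Zeros (eqs 1) k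
  mul_mem : ∀ (k : Type) [Field k] (τ τ' : Δ) (g g' : GL (Fin n) k),
    g ∈ Zeros (eqs τ) k → g' ∈ Zeros (eqs τ') k → g * g' ∈ Zeros (eqs (τ * τ')) k
  inv_mem : ∀ (k : Type) [Field k] (τ : Δ) (g : GL (Fin n) k),
    g ∈ Zeros (eqs τ) k → g⁻¹ ∈ Zeros (eqs τ⁻¹) k
  disjoint : ∀ (k : Type) [Field k] (τ τ' : Δ) (g : GL (Fin n) k),
    g ∈ Zeros (eqs τ) k → g ∈ Zeros (eqs τ') k → τ = τ'

variable {Δ : Type} [Group Δ] {n : ℕ}

/-- The polynomial `Q` is, on the coset of `τ`, invariant under conjugation by the elements of the coset of `1`. -/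
def LGroup.Invariant (G : LGroup Δ n) (τ : Δ) (Q : Poly n) : Prop :=
  ∀ (k : Type) [Field k] (g h : GL (Fin n) k), g ∈ Zeros (G.eqs 1) k → h ∈ Zeros (G.eqs τ) k →
    val ((g * h * g⁻¹ : GL (Fin n) k) : Matrix (Fin n) (Fin n) k) Q = val (h : Matrix (Fin n) (Fin n) k) Q

section
variable {F : Type} [Field F] [NumberField F]

/-- The maximal ideal `P` of the ring of all algebraic integers lies above the prime `v`. -/
def Above (v : HeightOneSpectrum (𝓞 F)) (P : Ideal (ZBar F)) : Prop :=
  P.IsMaximal ∧ P.comap (algebraMap (𝓞 F) (ZBar F)) = v.asIdeal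

/-- `σ` is a geometric Frobenius element at `P` (above `v`): it induces the inverse of `x ↦ x ^ N(v)` on the residue
field of `P`. -/
def IsGeomFrob (v : HeightOneSpectrum (𝓞 F)) (P : Ideal (ZBar F)) (σ : Gam F) : Prop :=
  ∀ x : ZBar F, x - (σ • x) ^ Ideal.absNorm v.asIdeal ∈ P

variable {k : Type} [Field k]

/-- `ρ` is admissible: `δ` is the projection of the absolute Galois group to `Δ`, and `ρ g` lies in the coset of
`δ g`. -/
def Admissible (G : LGroup Δ n) (δ : Gam F →* Δ) (ρ : Gam F →* GL (Fin n) k) : Prop :=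
  ∀ g, ρ g ∈ Zeros (G.eqs (δ g)) k

/-- `ρ` is unramified at `v`, and for all `P` above `v` and all geometric Frobenius elements `σ` at `P`, the invariant
polynomials `Q` on the coset of `δ σ` have the value `c P Q` at `ρ σ`. So `ρ σ` lies over the point `c P` of the quotient of
the coset of `δ σ` by conjugation. -/
def MatchesAt (G : LGroup Δ n) (δ : Gam F →* Δ) (ρ : Gam F →* GL (Fin n) k) (v : HeightOneSpectrum (𝓞 F))
    (c : Ideal (ZBar F) → Poly n → k) : Prop :=
  ∀ P : Ideal (ZBar F), Above v P →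
    (∀ τ : Gam F, (∀ x : ZBar F, τ • x - x ∈ P) → ρ τ = 1) ∧
    ∀ σ : Gam F, IsGeomFrob v P σ → ∀ Q : Poly n, G.Invariant (δ σ) Q →
      val (ρ σ : Matrix (Fin n) (Fin n) k) Q = c P Q

/-- Every stable subspace has a stable complement. -/
def Semisimple (ρ : Gam F →* GL (Fin n) k) : Prop :=
  ∀ W : Submodule k (Fin n → k),
    (∀ g, ∀ x ∈ W, (ρ g : Matrix (Fin n) (Fin n) k).mulVec x ∈ W) →
    ∃ W' : Submodule k (Fin n → k),
      (∀ g, ∀ x ∈ W', (ρ g : Matrix (Fin n) (Fin n) k).mulVec x ∈ W') ∧ IsCompl W W'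

/-- The set `E` of primes of `F` has natural density zero. -/
def DensityZero (E : Set (HeightOneSpectrum (𝓞 F))) : Prop :=
  Tendsto (fun N : ℕ => (Nat.card {v : HeightOneSpectrum (𝓞 F) // Ideal.absNorm v.asIdeal ≤ N ∧ v ∈ E} : ℝ) /
    (Nat.primeCounting N : ℝ)) atTop (𝓝 0)

/-- The trace, as a polynomial in the entries. -/
noncomputable def tracePoly (n : ℕ) : Poly n := ∑ i : Fin n, MvPolynomial.X (i, i)

variable {K : Type} [Field K] [NumberField K]

/-- **The systems of Satake parameters considered.** `s P Q` is the value of the invariant polynomial `Q` at the Satake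
parameter `s_v`, for `P` above `v ∉ E`. These values are integers of the number field `K`; the trace of `s_v` depends
on `v` only, and the mean values of `|σ (t v)| ^ 2`, `t v` the trace of `s_v`, over the `v ∉ E` with `N(v) ≤ x` are bounded for
arbitrarily large `x`, simultaneously for all the embeddings `σ` of `K`. -/
structure IsSystem (n : ℕ) (E : Set (HeightOneSpectrum (𝓞 F))) (s : Ideal (ZBar F) → Poly n → 𝓞 K) : Prop where
  pos : 0 < n
  meanSquare : ∃ t : HeightOneSpectrum (𝓞 F) → 𝓞 K,
    (∀ v, v ∉ E → ∀ P, Above v P → s P (tracePoly n) = t v) ∧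
    ∃ C : ℝ, ∃ᶠ x : ℕ in atTop, ∀ σ : K →+* ℂ,
      ∑ᶠ v ∈ {v : HeightOneSpectrum (𝓞 F) | Ideal.absNorm v.asIdeal ≤ x ∧ v ∉ E}, ‖σ (t v)‖ ^ 2 ≤
        C * Nat.primeCounting x

/-- The primes above `ℓ`. -/
def PrimesAbove (F : Type) [Field F] [NumberField F] (ℓ : ℕ) : Set (HeightOneSpectrum (𝓞 F)) :=
  {v | (ℓ : 𝓞 F) ∈ v.asIdeal}

/-- **The conclusion of the conjecture for `ℓ` and the embedding `j`**, outside of `E`: there is a continuous
(semisimple) admissible representation which is at all `v ∉ E` not above `ℓ` unramified and conjugate to `j (s_v)`. -/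
def HasLadic (G : LGroup Δ n) (δ : Gam F →* Δ) (E : Set (HeightOneSpectrum (𝓞 F)))
    (s : Ideal (ZBar F) → Poly n → 𝓞 K) (ℓ : ℕ) [Fact ℓ.Prime] (j : K →+* PadicAlgCl ℓ) : Prop :=
  ∃ ρ : Gam F →* GL (Fin n) (PadicAlgCl ℓ), Continuous ρ ∧ Semisimple ρ ∧ Admissible G δ ρ ∧
    ∀ v, v ∉ E → v ∉ PrimesAbove F ℓ → MatchesAt G δ ρ v (fun P Q => j (s P Q))

/-- The same modulo a prime ideal of `K` above `ℓ`: a semisimple admissible representation with open kernel over a
field of characteristic `ℓ`. -/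
def HasModular (G : LGroup Δ n) (δ : Gam F →* Δ) (E : Set (HeightOneSpectrum (𝓞 F)))
    (s : Ideal (ZBar F) → Poly n → 𝓞 K) (ℓ : ℕ) : Prop :=
  ∃ (k : Type) (_ : Field k) (_ : CharP k ℓ) (φ : 𝓞 K →+* k) (ρ : Gam F →* GL (Fin n) k),
    IsOpen (ρ.ker : Set (Gam F)) ∧ Semisimple ρ ∧ Admissible G δ ρ ∧
      ∀ v, v ∉ E → v ∉ PrimesAbove F ℓ → MatchesAt G δ ρ v (fun P Q => φ (s P Q))

/-- The same with open kernel (hence finite image) over a finite extension `L` of `K`, at all `v ∉ E`. -/
def HasArtin (G : LGroup Δ n) (δ : Gam F →* Δ) (E : Set (HeightOneSpectrum (𝓞 F)))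
    (s : Ideal (ZBar F) → Poly n → 𝓞 K) : Prop :=
  ∃ (L : Type) (_ : Field L) (_ : Algebra K L), FiniteDimensional K L ∧
    ∃ R : Gam F →* GL (Fin n) L, IsOpen (R.ker : Set (Gam F)) ∧ Admissible G δ R ∧
      ∀ v, v ∉ E → MatchesAt G δ R v (fun P Q => algebraMap K L (s P Q))

end

end Pool.Agent.U849.DG
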