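import Pool.Agent.U849.DG.Pt
import Pool.Agent.U849.DG.Bound

/-!
# The theorem of Deligne and Serre for L-groups over number fields
-/

set_option autoImplicit false
set_option maxHeartbeats 4000000

namespace Pool.Agent.U849.DG

open NumberField Filter Topology IsDedekindDomain Polynomial
open Pool.Agent.W401.Cheb Pool.Agent.W569.FM Pool.Agent.R401.Img Pool.Agent.R401 Pool.Agent
open Pool.Agent.R401.DS

variable {F : Type} [Field F] [NumberField F] {Δ : Type} [Group Δ] {n : ℕ} {G : LGroup Δ n} {δ : Gam F →* Δ}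

theorem invariant_cpoly (G : LGroup Δ n) (τ : Δ) (i : ℕ) : G.Invariant τ (cpoly n i) := by
  intro k _ g h _ _
  rw [val_cpoly, val_cpoly]
  have h1 := Matrix.charpoly_units_conj (R := k) (n := Fin n) g (h : Matrix (Fin n) (Fin n) k)
  have h2 : ((g * h * g⁻¹ : GL (Fin n) k) : Matrix (Fin n) (Fin n) k) =
      (g : Matrix (Fin n) (Fin n) k) * (h : Matrix (Fin n) (Fin n) k) *
        ((g⁻¹ : GL (Fin n) k) : Matrix (Fin n) (Fin n) k) := rfl
  rw [h2, Matrix.coe_units_inv]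
  exact congrArg (fun q => q.coeff i) h1

theorem invariant_trace (G : LGroup Δ n) (τ : Δ) : G.Invariant τ (tracePoly n) := by
  intro k _ g h _ _
  rw [val_trace, val_trace]
  have h2 : ((g * h * g⁻¹ : GL (Fin n) k) : Matrix (Fin n) (Fin n) k) =
      (g : Matrix (Fin n) (Fin n) k) * (h : Matrix (Fin n) (Fin n) k) *
        ((g⁻¹ : GL (Fin n) k) : Matrix (Fin n) (Fin n) k) := rfl
  have h3 : ((g⁻¹ : GL (Fin n) k) : Matrix (Fin n) (Fin n) k) * (g : Matrix (Fin n) (Fin n) k) = 1 := by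
    rw [← Units.val_mul, inv_mul_cancel, Units.val_one]
  rw [h2, Matrix.trace_mul_comm, ← mul_assoc, h3, one_mul]

/-- the characteristic polynomial prescribed by the values of its coefficients -/
noncomputable def fpoly {R : Type*} [CommRing R] {n : ℕ} (c : Poly n → R) : R[X] :=
  ∑ i ∈ Finset.range (n + 1), Polynomial.C (c (cpoly n i)) * X ^ i

theorem fpoly_map {R S : Type*} [CommRing R] [CommRing S] {n : ℕ} (c : Poly n → R) (φ : R →+* S) :
    (fpoly c).map φ = fpoly fun Q => φ (c Q) := by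
  unfold fpoly
  rw [Polynomial.map_sum]
  simp

theorem charpoly_eq {k : Type*} [Field k] {n : ℕ} {M : Matrix (Fin n) (Fin n) k} {c : Poly n → k}
    (h : ∀ i, val M (cpoly n i) = c (cpoly n i)) : M.charpoly = fpoly c := by
  ext i
  unfold fpoly
  rw [Polynomial.finsetSum_coeff]
  simp only [Polynomial.coeff_C_mul, Polynomial.coeff_X_pow, mul_ite, mul_one, mul_zero,
    Finset.sum_ite_eq, Finset.mem_range]
  split_ifs with hi
  · rw [← h, val_cpoly]
  · apply Polynomial.coeff_eq_zero_of_natDegree_lt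
    rw [Matrix.charpoly_natDegree_eq_dim, Fintype.card_fin]
    omega

theorem geom_of_arith {v : HeightOneSpectrum (𝓞 F)} {P : Ideal (ZBar F)} {g : GK F}
    (hg : FrobAt (Ideal.absNorm v.asIdeal) P g) : IsGeomFrob v P g⁻¹ := by
  intro x
  have h1 := hg (g⁻¹ • x)
  rwa [smul_inv_smul] at h1

theorem arith_of_geom {v : HeightOneSpectrum (𝓞 F)} {P : Ideal (ZBar F)} {g : GK F}
    (hg : IsGeomFrob v P g) : FrobAt (Ideal.absNorm v.asIdeal) P g⁻¹ := by
  intro x
  have h1 := hg (g⁻¹ • x)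
  rwa [smul_inv_smul] at h1

theorem matches_charpoly {k : Type} [Field k] {ρ : Gam F →* GL (Fin n) k} {v : HeightOneSpectrum (𝓞 F)}
    {K : Type} [Field K] [NumberField K] {s : Ideal (ZBar F) → Poly n → 𝓞 K} {φ : 𝓞 K →+* k}
    (h : MatchesAt G δ ρ v (fun P Q => φ (s P Q))) {P : Ideal (ZBar F)} (hP : Above v P) {σ : GK F}
    (hσ : IsGeomFrob v P σ) : (mt ρ σ).charpoly = (fpoly (s P)).map φ := by
  rw [fpoly_map]
  exact charpoly_eq fun i => (h P hP).2 σ hσ _ (invariant_cpoly G _ i)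

theorem ker_le {k : Type} [Field k] {ρ : Gam F →* GL (Fin n) k} (h : Admissible G δ ρ) : ρ.ker ≤ δ.ker := by
  intro g hg
  have h1 := h g
  rw [MonoidHom.mem_ker.1 hg] at h1
  exact G.disjoint k _ _ 1 h1 (G.one_mem k)

/-- **Deligne–Serre for L-groups**: representations in infinitely many characteristics whose images
have bounded orders -/
theorem glue {K : Type} [Field K] [NumberField K] {E : Set (HeightOneSpectrum (𝓞 F))} (hE : DensityZero E)
    (s : Ideal (ZBar F) → Poly n → 𝓞 K) {A : ℕ}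
    (hmod : ∀ N : ℕ, ∃ ℓ, N < ℓ ∧ ℓ.Prime ∧ ∃ (k : Type) (_ : Field k) (_ : CharP k ℓ)
      (φ : 𝓞 K →+* k) (ρ : Gam F →* GL (Fin n) k), IsOpen (ρ.ker : Set (Gam F)) ∧
        Nat.card (Gam F ⧸ ρ.ker) ≤ A ∧ Admissible G δ ρ ∧
        ∀ v, v ∉ E → v ∉ PrimesAbove F ℓ → MatchesAt G δ ρ v (fun P Q => φ (s P Q))) :
    HasArtin G δ E s := by
  classical
  -- the data
  choose ℓ hℓN hℓp k ik ic φ ρ hρ hcard hadm hatt using hmod
  -- finitely many polynomials
  set S : Set (𝓞 K)[X] := {q | ∃ v, v ∉ E ∧ ∃ P, Above v P ∧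
    ∃ g, FrobAt (Ideal.absNorm v.asIdeal) P g ∧ fpoly (s P) = q} with hSdef
  have hSfin : S.Finite := by
    by_contra hinf
    obtain ⟨t, htS, ht⟩ := (show S.Infinite from hinf).exists_subset_card_eq (A + 1)
    obtain ⟨M, hM⟩ := injOn_of_finite (t.finite_toSet)
    choose vv hvE P hP g hg hfpr using (fun q : t => (htS q.2 : ∃ v, v ∉ E ∧ ∃ P, Above v P ∧
      ∃ g, FrobAt (Ideal.absNorm v.asIdeal) P g ∧ fpoly (s P) = (q : (𝓞 K)[X])))
    set M' : ℕ := (Finset.univ : Finset t).sup (fun q => Ideal.absNorm (vv q).asIdeal) with hM'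
    set N : ℕ := max M M' with hN
    have h1 : M < ℓ N := (le_max_left _ _).trans_lt (hℓN N)
    have h2 : M' < ℓ N := (le_max_right _ _).trans_lt (hℓN N)
    have : Finite (Gam F ⧸ (ρ N).ker) := Subgroup.quotient_finite_of_isOpen _ (hρ N)
    have h4 : Nat.card t ≤ Nat.card (Gam F ⧸ (ρ N).ker) := by
      refine Nat.card_le_card_of_injective
        (fun q : t => (((g q)⁻¹ : Gam F) : Gam F ⧸ (ρ N).ker)) ?_
      intro q q' hqq
      have h5 : ∀ q : t, (mt (ρ N) (g q)⁻¹).charpoly = (q : (𝓞 K)[X]).map (φ N) := by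
        intro q
        have h6 : Ideal.absNorm (vv q).asIdeal < ℓ N :=
          (Finset.le_sup (f := fun q => Ideal.absNorm (vv q).asIdeal) (Finset.mem_univ q)).trans_lt h2
        have h7 := matches_charpoly (hatt N (vv q) (hvE q) (notMem_primesAbove (hℓp N) h6))
          (hP q) (geom_of_arith (hg q))
        rw [hfpr q] at h7
        exact h7
      have h6 : mt (ρ N) (g q)⁻¹ = mt (ρ N) (g q')⁻¹ := by
        have h7 := QuotientGroup.eq.1 hqq
        rw [MonoidHom.mem_ker, map_mul, map_inv, inv_mul_eq_one] at h7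
        exact congrArg Units.val h7
      have h7 : (q : (𝓞 K)[X]).map (φ N) = (q' : (𝓞 K)[X]).map (φ N) := by
        rw [← h5 q, ← h5 q', h6]
      exact Subtype.ext (@hM (ℓ N) (k N) (ik N) (ic N) (φ N) h1 _ q.2 _ q'.2 h7)
    have h5 := h4.trans (hcard N)
    rw [Nat.card_eq_fintype_card, Fintype.card_coe, ht] at h5
    omega
  -- reduction is injective
  obtain ⟨M, hM⟩ := injOn_of_finite (hSfin.insert ((X - 1) ^ n : (𝓞 K)[X]))
  set N₀ : ℕ := max M A with hN₀
  have hlarge : ∀ N, N₀ ≤ N → M < ℓ N ∧ A < ℓ N := by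
    intro N hN
    have h1 := hℓN N
    have h2 : M ≤ N₀ := le_max_left _ _
    have h4 : A ≤ N₀ := le_max_right _ _
    omega
  have hker : ∀ N N', N₀ ≤ N → N₀ ≤ N' → (ρ N).ker ≤ (ρ N').ker := by
    intro N N' hN hN' g hg
    have hopen : IsOpen (((ρ N).ker ⊓ (ρ N').ker : Subgroup (Gam F)) : Set (Gam F)) :=
      (hρ N).inter (hρ N')
    obtain ⟨v, P, σ, hvB, hP, hσ, hgσ⟩ := exists_frob ((ρ N).ker ⊓ (ρ N').ker) hopen
      (B := E ∪ (PrimesAbove F (ℓ N) ∪ PrimesAbove F (ℓ N')))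
      (hE.union (DensityZero.of_finite ((finite_primesAbove (hℓp N).ne_zero).union
        (finite_primesAbove (hℓp N').ne_zero)))) g
    simp only [Set.mem_union, not_or] at hvB
    obtain ⟨hvE, hvN, hvN'⟩ := hvB
    obtain ⟨h1, h2⟩ := Subgroup.mem_inf.1 hgσ
    rw [MonoidHom.mem_ker, map_mul, map_inv, inv_mul_eq_one] at h1 h2
    rw [MonoidHom.mem_ker] at hg ⊢
    rw [hg] at h1
    rw [h2]
    have h3 := matches_charpoly (hatt N v hvE hvN) hP (geom_of_arith hσ)
    have h4 := matches_charpoly (hatt N' v hvE hvN') hP (geom_of_arith hσ)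
    have h5 : mt (ρ N) σ⁻¹ = 1 := by
      unfold Img.mt
      rw [map_inv, ← h1, inv_one, Units.val_one]
    rw [h5, Matrix.charpoly_one, Fintype.card_fin] at h3
    have h6 : ((X - 1) ^ n : (𝓞 K)[X]).map (φ N) = (fpoly (s P)).map (φ N) := by
      rw [← h3, Polynomial.map_pow, Polynomial.map_sub, map_X, Polynomial.map_one]
    have h7 := @hM (ℓ N) (k N) (ik N) (ic N) (φ N) (hlarge N hN).1 _ (Set.mem_insert _ _) _
      (Set.mem_insert_of_mem _ ⟨v, hvE, P, hP, σ, hσ, rfl⟩) h6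
    rw [← h7, Polynomial.map_pow, Polynomial.map_sub, map_X, Polynomial.map_one] at h4
    have : Finite (Gam F ⧸ (ρ N').ker) := Subgroup.quotient_finite_of_isOpen _ (hρ N')
    have h8 : ((ρ N') σ⁻¹) ^ Nat.card (Gam F ⧸ (ρ N').ker) = 1 := by
      rw [← map_pow, ← MonoidHom.mem_ker, ← QuotientGroup.eq_one_iff, QuotientGroup.mk_pow]
      exact pow_card_eq_one'
    have h9 : mt (ρ N') σ⁻¹ = 1 := by
      refine eq_one_of_charpoly h4 (e := Nat.card (Gam F ⧸ (ρ N').ker)) ?_ ?_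
      · intro h
        have h10 := (@CharP.cast_eq_zero_iff (k N') _ (ℓ N') (ic N') _).1 h
        have h11 := Nat.le_of_dvd Nat.card_pos h10
        have h12 := hcard N'
        have h13 := (hlarge N' hN').2
        omega
      · have h10 := congrArg Units.val h8
        rw [Units.val_pow_eq_pow_val, Units.val_one] at h10
        exact h10
    have h10 : (ρ N') σ⁻¹ = 1 := Units.ext h9
    rw [map_inv, inv_eq_one] at h10
    exact h10
  -- the finite quotient
  have hkerN₀ : ∀ N, N₀ ≤ N → (ρ N₀).ker ≤ (ρ N).ker := fun N hN => hker N₀ N le_rfl hN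
  have hfin : Finite (Gam F ⧸ (ρ N₀).ker) := Subgroup.quotient_finite_of_isOpen _ (hρ N₀)
  have hfrob : ∀ γ : Gam F ⧸ (ρ N₀).ker, ∃ (v : HeightOneSpectrum (𝓞 F)) (P : Ideal (ZBar F)) (σ : Gam F),
      v ∉ E ∧ Above v P ∧ IsGeomFrob v P σ ∧ ((σ : Gam F) : Gam F ⧸ (ρ N₀).ker) = γ := by
    intro γ
    induction γ using QuotientGroup.induction_on with
    | H g =>
    obtain ⟨v, P, σ, hvE, hP, hσ, hgσ⟩ := exists_frob (ρ N₀).ker (hρ N₀) hE g⁻¹
    refine ⟨v, P, σ⁻¹, hvE, hP, geom_of_arith hσ, ?_⟩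
    rw [inv_inv, MonoidHom.mem_ker, map_mul] at hgσ
    rw [QuotientGroup.eq, inv_inv, MonoidHom.mem_ker, map_mul]
    rw [mul_eq_one_iff_eq_inv] at hgσ ⊢
    rw [hgσ, inv_inv]
  choose vv P σ hvE hP hσ hσγ using hfrob
  let ρ' : ∀ j : ℕ, (Gam F ⧸ (ρ N₀).ker) →* GL (Fin n) (k (N₀ + j)) := fun j =>
    QuotientGroup.lift (ρ N₀).ker (ρ (N₀ + j)) (hkerN₀ _ (Nat.le_add_right _ _))
  have hρ' : ∀ j (g : Gam F), ρ' j (g : Gam F ⧸ (ρ N₀).ker) = ρ (N₀ + j) g := fun j g => rfl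
  set T : Set ((Gam F ⧸ (ρ N₀).ker) × Poly n × 𝓞 K) :=
    {t | ∃ g : Gam F, (g : Gam F ⧸ (ρ N₀).ker) = t.1 ∧ t.2.1 ∈ G.eqs (δ g) ∧ t.2.2 = 0} ∪
    {t | G.Invariant (δ (σ t.1)) t.2.1 ∧ t.2.2 = s (P t.1) t.2.1} with hT
  obtain ⟨L, iL, iA, hfd, R, hR⟩ := exists_glue (K := K) (O := 𝓞 K) (J := ℕ)
    (fun j => k (N₀ + j)) (fun j => φ (N₀ + j)) (by
      intro x hx
      obtain ⟨M₁, hM₁⟩ := lt_of_map_eq_zero hx
      refine (Set.finite_Iic M₁).subset fun j hj => ?_
      rw [Set.mem_Iic]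
      by_contra hcon
      refine @hM₁ (ℓ (N₀ + j)) (k (N₀ + j)) (ik _) (ic _) (φ (N₀ + j)) hj ?_
      have := hℓN (N₀ + j)
      omega) ρ' T (by
      rintro ⟨γ, Q, c⟩ (⟨g, hg, hQ, hc⟩ | ⟨hQ, hc⟩)
      · simp only at hg hQ hc
        have h1 : {j | val ((ρ' j γ : GL (Fin n) (k (N₀ + j))) : Matrix (Fin n) (Fin n) (k (N₀ + j))) Q ≠
            φ (N₀ + j) c} = ∅ := by
          ext j
          simp only [Set.mem_ofPred_eq, Set.mem_empty_iff_false, iff_false, not_not]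
          rw [hc, map_zero, ← hg, hρ']
          exact hadm (N₀ + j) g Q hQ
        change Set.Finite {j | val ((ρ' j γ : GL (Fin n) (k (N₀ + j))) : Matrix (Fin n) (Fin n) (k (N₀ + j))) Q ≠
            φ (N₀ + j) c}
        rw [h1]
        exact Set.finite_empty
      · simp only at hQ hc
        refine (Set.finite_Iic (Ideal.absNorm (vv γ).asIdeal)).subset fun j hj => ?_
        rw [Set.mem_Iic]
        by_contra hcon
        apply hj
        change val ((ρ' j γ : GL (Fin n) (k (N₀ + j))) : Matrix (Fin n) (Fin n) (k (N₀ + j))) Q = φ (N₀ + j) c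
        have h1 : val ((ρ (N₀ + j) (σ γ) : GL (Fin n) (k (N₀ + j))) : Matrix (Fin n) (Fin n) (k (N₀ + j))) Q =
            φ (N₀ + j) (s (P γ) Q) :=
          ((hatt (N₀ + j) (vv γ) (hvE γ) (notMem_primesAbove (hℓp _) (by
            have := hℓN (N₀ + j)
            omega))) (P γ) (hP γ)).2 (σ γ) (hσ γ) Q hQ
        rw [hc, ← h1, ← hρ', hσγ])
  refine ⟨L, iL, iA, hfd, R.comp (QuotientGroup.mk' (ρ N₀).ker), ?_, ?_, ?_⟩
  · refine Subgroup.isOpen_mono (H₁ := (ρ N₀).ker) ?_ (hρ N₀)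
    intro g hg
    rw [MonoidHom.mem_ker, MonoidHom.comp_apply, QuotientGroup.mk'_apply,
      (QuotientGroup.eq_one_iff g).2 hg, map_one]
  · intro g Q hQ
    have h1 := hR ((g : Gam F ⧸ (ρ N₀).ker), Q, 0) (Or.inl ⟨g, rfl, hQ, rfl⟩)
    simp only [map_zero] at h1
    exact h1
  · intro v hv Q₀ hQ₀
    constructor
    · intro g hg
      have h0 : v ∉ PrimesAbove F (ℓ (N₀ + Ideal.absNorm v.asIdeal)) := by
        apply notMem_primesAbove (hℓp _)
        have := hℓN (N₀ + Ideal.absNorm v.asIdeal)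
        omega
      have h1 := (hatt (N₀ + Ideal.absNorm v.asIdeal) v hv h0 Q₀ hQ₀).1 g hg
      have h2 : g ∈ (ρ N₀).ker := hker _ N₀ (Nat.le_add_right _ _) le_rfl h1
      rw [MonoidHom.comp_apply, QuotientGroup.mk'_apply, (QuotientGroup.eq_one_iff g).2 h2, map_one]
    · intro g hg Q hQ
      set γ : Gam F ⧸ (ρ N₀).ker := ((g : Gam F) : Gam F ⧸ (ρ N₀).ker) with hγ
      have hmem : (σ γ)⁻¹ * g ∈ (ρ N₀).ker := QuotientGroup.eq.1 (hσγ γ)
      have hδ : δ (σ γ) = δ g := by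
        have h1 := ker_le (hadm N₀) hmem
        rwa [MonoidHom.mem_ker, map_mul, map_inv, inv_mul_eq_one] at h1
      have hQ' : G.Invariant (δ (σ γ)) Q := by
        rw [hδ]
        exact hQ
      have h1 := hR (γ, Q, s (P γ) Q) (Or.inr ⟨hQ', rfl⟩)
      change val ((R γ : GL (Fin n) L) : Matrix (Fin n) (Fin n) L) Q = _
      rw [h1]
      have h2 : s (P γ) Q = s Q₀ Q := by
        by_contra hne
        obtain ⟨M₁, hM₁⟩ := lt_of_map_eq_zero (sub_ne_zero.2 hne)
        set N : ℕ := N₀ + Ideal.absNorm v.asIdeal + Ideal.absNorm (vv γ).asIdeal + M₁ with hN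
        have hlN := hℓN N
        refine @hM₁ (ℓ N) (k N) (ik N) (ic N) (φ N) ?_ (by omega)
        have h4 : val ((ρ N g : GL (Fin n) (k N)) : Matrix (Fin n) (Fin n) (k N)) Q = φ N (s Q₀ Q) :=
          ((hatt N v hv (notMem_primesAbove (hℓp _) (by omega))) Q₀ hQ₀).2 g hg Q hQ
        have h5 : val ((ρ N (σ γ) : GL (Fin n) (k N)) : Matrix (Fin n) (Fin n) (k N)) Q = φ N (s (P γ) Q) :=
          ((hatt N (vv γ) (hvE γ) (notMem_primesAbove (hℓp _) (by omega))) (P γ) (hP γ)).2 (σ γ) (hσ γ) Q hQ'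
        have h3 := hkerN₀ N (by omega) hmem
        rw [MonoidHom.mem_ker, map_mul, map_inv, inv_mul_eq_one] at h3
        rw [map_sub, sub_eq_zero, ← h4, ← h5, h3]
      simp only [h2]

end Pool.Agent.U849.DG
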