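import Pool.Agent.U849.DG.Glue
import Pool.Agent.R401.Avg

/-!
# Galois representations with values in L-groups: one or two `ℓ`-adic representations, or representations modulo
infinitely many primes
-/

set_option autoImplicit false
set_option maxHeartbeats 4000000

namespace Pool.Agent.U849.DG

open NumberField Filter Topology IsDedekindDomain Polynomial
open Pool.Agent.W401.Cheb Pool.Agent.W569.FM Pool.Agent.R401.Img Pool.Agent.R401 Pool.Agent
open Pool.Agent.R401.DS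

variable {F : Type} [Field F] [NumberField F] {Δ : Type} [Group Δ] {n : ℕ} {G : LGroup Δ n} {δ : Gam F →* Δ}
  {K : Type} [Field K] [NumberField K] {E : Set (HeightOneSpectrum (𝓞 F))} {s : Ideal (ZBar F) → Poly n → 𝓞 K}

section base

variable {k k' : Type} [Field k] [Field k']

/-- the representation with coefficients in a larger field -/
noncomputable def bc (j : k →+* k') (ρ : Gam F →* GL (Fin n) k) : Gam F →* GL (Fin n) k' :=
  (Matrix.GeneralLinearGroup.map j).comp ρ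

omit [NumberField F] in
theorem mt_bc (j : k →+* k') (ρ : Gam F →* GL (Fin n) k) (g : Gam F) :
    mt (bc j ρ) g = (mt ρ g).map j := rfl

omit [NumberField F] in
theorem ker_bc (j : k →+* k') (ρ : Gam F →* GL (Fin n) k) : (bc j ρ).ker = ρ.ker := by
  ext g
  rw [MonoidHom.mem_ker, MonoidHom.mem_ker]
  constructor
  · intro h
    apply Units.ext
    apply Matrix.map_injective j.injective
    have h1 : Img.mt (bc j ρ) g = 1 := by
      unfold Img.mt
      rw [h, Units.val_one]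
    rw [mt_bc] at h1
    change (Img.mt ρ g).map j = (1 : Matrix (Fin n) (Fin n) k).map j
    rw [h1, Matrix.map_one _ (map_zero _) (map_one _)]
  · intro h
    change (Matrix.GeneralLinearGroup.map j) (ρ g) = 1
    rw [h, map_one]

omit [NumberField F] in
theorem admissible_bc (j : k →+* k') {ρ : Gam F →* GL (Fin n) k} (h : Admissible G δ ρ) :
    Admissible G δ (bc j ρ) := by
  intro g Q hQ
  have h1 := val_map j (mt ρ g) Q
  have h2 : val (mt ρ g) Q = 0 := h g Q hQ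
  rw [h2, map_zero] at h1
  exact h1

theorem matches_bc (j : k →+* k') {ρ : Gam F →* GL (Fin n) k} {v : HeightOneSpectrum (𝓞 F)}
    {c : Ideal (ZBar F) → Poly n → k} (h : MatchesAt G δ ρ v c) :
    MatchesAt G δ (bc j ρ) v fun P Q => j (c P Q) := by
  intro P hP
  refine ⟨fun τ hτ => ?_, fun σ hσ Q hQ => ?_⟩
  · change (Matrix.GeneralLinearGroup.map j) (ρ τ) = 1
    rw [(h P hP).1 τ hτ, map_one]
  · have h1 := val_map j (mt ρ σ) Q
    have h2 : val (mt ρ σ) Q = c P Q := (h P hP).2 σ hσ Q hQ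
    rw [h2] at h1
    exact h1

end base

theorem ss_of_open {k : Type*} [Field k] [CharZero k] (ρ : Gam F →* GL (Fin n) k)
    (h : IsOpen (ρ.ker : Set (Gam F))) : SS ρ := by
  have h1 : Finite (Gam F ⧸ ρ.ker) := Subgroup.quotient_finite_of_isOpen _ h
  exact SS_of_finite ρ (Finite.of_equiv _ (QuotientGroup.quotientKerEquivRange ρ).toEquiv)

omit [NumberField F] in
theorem continuous_of_open {k : Type*} [Field k] [TopologicalSpace k] (ρ : Gam F →* GL (Fin n) k)
    (h : IsOpen (ρ.ker : Set (Gam F))) : Continuous ρ := by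
  apply IsLocallyConstant.continuous
  rw [IsLocallyConstant.iff_exists_open]
  intro x
  refine ⟨(fun g => x⁻¹ * g) ⁻¹' (ρ.ker : Set (Gam F)), h.preimage (continuous_const_mul _), ?_, ?_⟩
  · change x⁻¹ * x ∈ ρ.ker
    rw [inv_mul_cancel]
    exact one_mem _
  · intro y hy
    have h1 : x⁻¹ * y ∈ ρ.ker := hy
    rw [MonoidHom.mem_ker, map_mul, map_inv, inv_mul_eq_one] at h1
    exact h1.symm

/-- the trace at a Frobenius element -/
theorem matches_trace {k : Type} [Field k] {ρ : Gam F →* GL (Fin n) k} {v : HeightOneSpectrum (𝓞 F)}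
    {c : Ideal (ZBar F) → Poly n → k} (h : MatchesAt G δ ρ v c) {P : Ideal (ZBar F)} (hP : Above v P) {g : GK F}
    (hg : FrobAt (Ideal.absNorm v.asIdeal) P g) : (mt ρ g⁻¹).trace = c P (tracePoly n) := by
  have h1 := (h P hP).2 g⁻¹ (geom_of_arith hg) _ (invariant_trace G _)
  rw [val_trace] at h1
  exact h1

/-- **representations modulo infinitely many primes** -/
theorem artin_of_modular (h : IsSystem n E s) (hE : DensityZero E)
    (hmod : {ℓ : ℕ | ℓ.Prime ∧ HasModular G δ E s ℓ}.Infinite) : HasArtin G δ E s := by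
  classical
  obtain ⟨t, ht, C, hC⟩ := h.meanSquare
  set ε : ℝ := 1 / (2 * ((n : ℝ) ^ 2 + 1)) with hε
  have hε0 : 0 < ε := by positivity
  have hε1 : (n : ℝ) ^ 2 * ε < 1 / 2 := by
    rw [hε, mul_one_div, div_lt_div_iff₀ (by positivity) (by norm_num)]
    linarith
  obtain ⟨Y, hY, hYcnt⟩ := exists_finite E t hC (half_pos hε0)
  set A : ℕ := 2 * (Y.ncard + 1) ^ (n ^ 2) with hA
  refine glue hE s (A := A) fun N => ?_
  obtain ⟨ℓ, ⟨hℓ, k, ik, ic, φ, ρ, hker, hss, hadm, hatt⟩, hℓN⟩ := hmod.exists_gt (max N n)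
  have hnℓ : n < ℓ := (le_max_right _ _).trans_lt hℓN
  refine ⟨ℓ, (le_max_left _ _).trans_lt hℓN, hℓ, k, ik, ic, φ, ρ, hker, ?_, hadm, hatt⟩
  have hk : ∀ m : ℕ, 0 < m → m ≤ n → (m : k) ≠ 0 := by
    intro m hm hmn h
    rw [CharP.cast_eq_zero_iff k ℓ] at h
    exact absurd (Nat.le_of_dvd hm h) (by omega)
  have h1 := bound hk ρ hker hss (Y := (fun y => φ y) '' Y) (hY.image _)
    ((E ∪ PrimesAbove F ℓ) ∪ {v | v ∉ E ∧ t v ∉ Y}) (by
    intro v hv P hP g hg
    simp only [Set.mem_union, not_or, Set.mem_ofPred_eq, not_and, not_not] at hv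
    obtain ⟨⟨hvE, hvℓ⟩, hvY⟩ := hv
    refine ⟨_, hvY hvE, ?_⟩
    change φ (t v) = _
    rw [matches_trace (hatt v hvE hvℓ) hP hg, ht v hvE P hP]) hε0.le
    (freq_union (hE.union (DensityZero.of_finite (finite_primesAbove hℓ.ne_zero))) _ hε0 hYcnt)
  have h2 : ((fun y => φ y) '' Y).ncard ≤ Y.ncard := Set.ncard_image_le hY
  have h3 : (1 / 2 : ℝ) * Nat.card (GK F ⧸ ρ.ker) ≤ (Y.ncard + 1) ^ (n ^ 2) := by
    refine le_trans ?_ (h1.trans ?_)
    · apply mul_le_mul_of_nonneg_right _ (Nat.cast_nonneg _)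
      linarith
    · have h4 : ((((fun y => φ y) '' Y).ncard : ℕ) : ℝ) ≤ Y.ncard := by exact_mod_cast h2
      exact pow_le_pow_left₀ (by positivity) (by linarith) _
  have h4 : (Nat.card (GK F ⧸ ρ.ker) : ℝ) ≤ A := by
    rw [hA]
    push_cast
    linarith
  exact_mod_cast h4

/-- **one `ℓ`-adic representation** -/
theorem artin_of_ladic (h : IsSystem n E s) (hE : DensityZero E) {ℓ : ℕ} [hℓ : Fact ℓ.Prime]
    {j : K →+* PadicAlgCl ℓ} (hl : HasLadic G δ E s ℓ j) : HasArtin G δ (E ∪ PrimesAbove F ℓ) s := by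
  classical
  obtain ⟨t, ht, C, hC⟩ := h.meanSquare
  obtain ⟨ρ, hρ, hss, hadm, hatt⟩ := hl
  set ε : ℝ := 1 / (2 * ((n : ℝ) ^ 2 + 1)) with hε
  have hε0 : 0 < ε := by positivity
  have hε1 : (n : ℝ) ^ 2 * ε < 1 / 2 := by
    rw [hε, mul_one_div, div_lt_div_iff₀ (by positivity) (by norm_num)]
    linarith
  obtain ⟨Y, hY, hYcnt⟩ := exists_finite E t hC (half_pos hε0)
  have hopen : IsOpen (ρ.ker : Set (Gam F)) :=
    open_ker ρ hρ hss (Y := (fun y : 𝓞 K => j y) '' Y) (hY.image _)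
      ((E ∪ PrimesAbove F ℓ) ∪ {v | v ∉ E ∧ t v ∉ Y}) (by
      intro v hv P hP g hg
      simp only [Set.mem_union, not_or, Set.mem_ofPred_eq, not_and, not_not] at hv
      obtain ⟨⟨hvE, hvℓ⟩, hvY⟩ := hv
      refine ⟨_, hvY hvE, ?_⟩
      change j (t v) = _
      rw [matches_trace (hatt v hvE hvℓ) hP hg, ht v hvE P hP]) hε0.le
      (hε1.trans (by norm_num))
      (freq_union (hE.union (DensityZero.of_finite (finite_primesAbove hℓ.out.ne_zero))) _ hε0 hYcnt)
  -- the finite group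
  have hfin : Finite (Gam F ⧸ ρ.ker) := Subgroup.quotient_finite_of_isOpen _ hopen
  let _ : Algebra K (PadicAlgCl ℓ) := j.toAlgebra
  have hj : ∀ x : K, algebraMap K (PadicAlgCl ℓ) x = j x := fun x => rfl
  let ρ' : (Gam F ⧸ ρ.ker) →* GL (Fin n) (PadicAlgCl ℓ) := QuotientGroup.kerLift ρ
  have hρ' : ∀ g : Gam F, ρ' (g : Gam F ⧸ ρ.ker) = ρ g := fun g => rfl
  obtain ⟨L, iL, iA, hfd, R, hR⟩ := exists_pt (K := K) (Q := PadicAlgCl ℓ) (Γ := Gam F ⧸ ρ.ker)
    ((Units.coeHom _).comp ρ')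
    ({x | ∃ g : Gam F, (g : Gam F ⧸ ρ.ker) = x.1 ∧ x.2.1 ∈ G.eqs (δ g) ∧ x.2.2 = 0} ∪
      {x | ∃ v, v ∉ E ∪ PrimesAbove F ℓ ∧ ∃ P, Above v P ∧ ∃ σ : Gam F, IsGeomFrob v P σ ∧
        (σ : Gam F ⧸ ρ.ker) = x.1 ∧ G.Invariant (δ σ) x.2.1 ∧ x.2.2 = (s P x.2.1 : K)}) (by
    rintro ⟨γ, Q, c⟩ (⟨g, hg, hQ, hc⟩ | ⟨v, hv, P, hP, σ, hσ, hσγ, hQ, hc⟩)
    · simp only at hg hQ hc
      change val ((ρ' γ : GL (Fin n) (PadicAlgCl ℓ)) : Matrix (Fin n) (Fin n) (PadicAlgCl ℓ)) Q = _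
      rw [hc, map_zero, ← hg, hρ']
      exact hadm g Q hQ
    · simp only at hσγ hQ hc
      simp only [Set.mem_union, not_or] at hv
      change val ((ρ' γ : GL (Fin n) (PadicAlgCl ℓ)) : Matrix (Fin n) (Fin n) (PadicAlgCl ℓ)) Q = _
      rw [hc, ← hσγ, hρ', hj]
      exact (hatt v hv.1 hv.2 P hP).2 σ hσ Q hQ)
  refine ⟨L, iL, iA, hfd, R.comp (QuotientGroup.mk' ρ.ker), ?_, ?_, ?_⟩
  · refine Subgroup.isOpen_mono (H₁ := ρ.ker) ?_ hopen
    intro g hg
    rw [MonoidHom.mem_ker, MonoidHom.comp_apply, QuotientGroup.mk'_apply,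
      (QuotientGroup.eq_one_iff g).2 hg, map_one]
  · intro g Q hQ
    have h1 := hR ((g : Gam F ⧸ ρ.ker), Q, 0) (Or.inl ⟨g, rfl, hQ, rfl⟩)
    simp only [map_zero] at h1
    exact h1
  · intro v hv P hP
    constructor
    · intro g hg
      simp only [Set.mem_union, not_or] at hv
      have h2 : g ∈ ρ.ker := (hatt v hv.1 hv.2 P hP).1 g hg
      rw [MonoidHom.comp_apply, QuotientGroup.mk'_apply, (QuotientGroup.eq_one_iff g).2 h2, map_one]
    · intro g hg Q hQ
      exact hR ((g : Gam F ⧸ ρ.ker), Q, (s P Q : K)) (Or.inr ⟨v, hv, P, hP, g, hg, rfl, hQ, rfl⟩)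

/-- a finite exponent for the image -/
theorem exists_exp {k : Type*} [Field k] (ρ : Gam F →* GL (Fin n) k) (hker : IsOpen (ρ.ker : Set (Gam F))) :
    ∃ e : ℕ, 0 < e ∧ ∀ g, (Img.mt ρ g) ^ e = 1 := by
  have hfin : Finite (Gam F ⧸ ρ.ker) := Subgroup.quotient_finite_of_isOpen _ hker
  refine ⟨Nat.card (Gam F ⧸ ρ.ker), Nat.card_pos, fun g => ?_⟩
  have h8 : (ρ g) ^ Nat.card (Gam F ⧸ ρ.ker) = 1 := by
    rw [← map_pow, ← MonoidHom.mem_ker, ← QuotientGroup.eq_one_iff, QuotientGroup.mk_pow]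
    exact pow_card_eq_one'
  have h10 := congrArg Units.val h8
  rw [Units.val_pow_eq_pow_val, Units.val_one] at h10
  exact h10

/-- two representations with open kernels which match outside of two different sets -/
theorem artin_union (hE : DensityZero E) {X₁ X₂ : Set (HeightOneSpectrum (𝓞 F))} (h1 : DensityZero X₁)
    (h2 : DensityZero X₂) (hX : Disjoint X₁ X₂) (ha : HasArtin G δ (E ∪ X₁) s) (hb : HasArtin G δ (E ∪ X₂) s) :
    HasArtin G δ E s := by
  obtain ⟨L, iL, iA, hfd, R, hR, hadm, hatt⟩ := ha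
  obtain ⟨L', iL', iA', hfd', R', hR', hadm', hatt'⟩ := hb
  have hopen : IsOpen ((R.ker ⊓ R'.ker : Subgroup (Gam F)) : Set (Gam F)) := hR.inter hR'
  obtain ⟨e, he0, he⟩ := exists_exp R hR
  have hchar : CharZero K := inferInstance
  have hchar' : CharZero L := charZero_of_injective_algebraMap (algebraMap K L).injective
  have hinj : Function.Injective (fun x : 𝓞 K => algebraMap K L' (x : K)) := by
    intro x y hxy
    exact RingOfIntegers.ext ((algebraMap K L').injective hxy)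
  -- geometric Frobenius elements congruent to `g`
  have hfr : ∀ g : Gam F, ∃ (v : HeightOneSpectrum (𝓞 F)) (P : Ideal (ZBar F)) (σ : Gam F),
      v ∉ E ∪ X₁ ∧ v ∉ E ∪ X₂ ∧ Above v P ∧ IsGeomFrob v P σ ∧ R σ = R g ∧ R' σ = R' g := by
    intro g
    obtain ⟨v, P, σ, hv, hP, hσ, hgσ⟩ := exists_frob (R.ker ⊓ R'.ker) hopen (B := E ∪ (X₁ ∪ X₂))
      (hE.union (h1.union h2)) g⁻¹
    simp only [Set.mem_union, not_or] at hv
    obtain ⟨hvE, hv1, hv2⟩ := hv
    obtain ⟨h3, h4⟩ := Subgroup.mem_inf.1 hgσ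
    rw [MonoidHom.mem_ker, map_mul, map_inv, inv_mul_eq_one] at h3 h4
    refine ⟨v, P, σ⁻¹, ?_, ?_, hP, geom_of_arith hσ, ?_, ?_⟩
    · rintro (h | h)
      · exact hvE h
      · exact hv1 h
    · rintro (h | h)
      · exact hvE h
      · exact hv2 h
    · rw [map_inv, ← h3, map_inv, inv_inv]
    · rw [map_inv, ← h4, map_inv, inv_inv]
  refine ⟨L, iL, iA, hfd, R, hR, hadm, fun v hvE => ?_⟩
  by_cases hv1 : v ∈ X₁
  · have hv2 : v ∉ E ∪ X₂ := by
      rintro (h | h)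
      · exact hvE h
      · exact Set.disjoint_left.1 hX hv1 h
    have hA := hatt' v hv2
    intro P hP
    constructor
    · intro g hg
      have h5 := (hA P hP).1 g hg
      obtain ⟨w, P', σ, hw1, hw2, hP', hσ, h6, h7⟩ := hfr g
      have h8 := matches_charpoly (φ := (algebraMap K L').comp (algebraMap (𝓞 K) K)) (hatt' w hw2) hP' hσ
      have h9 := matches_charpoly (φ := (algebraMap K L).comp (algebraMap (𝓞 K) K)) (hatt w hw1) hP' hσ
      have h10 : mt R' σ = 1 := by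
        unfold Img.mt
        rw [h7, h5, Units.val_one]
      rw [h10, Matrix.charpoly_one, Fintype.card_fin] at h8
      have h11 : fpoly (s P') = (X - 1) ^ n := by
        apply Polynomial.map_injective ((algebraMap K L').comp (algebraMap (𝓞 K) K)) hinj
        rw [← h8, Polynomial.map_pow, Polynomial.map_sub, map_X, Polynomial.map_one]
      rw [h11, Polynomial.map_pow, Polynomial.map_sub, map_X, Polynomial.map_one] at h9
      have h12 := eq_one_of_charpoly h9 (e := e) (Nat.cast_ne_zero.2 he0.ne') (he _)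
      rw [← h6]
      exact Units.ext h12
    · intro g hg Q hQ
      obtain ⟨w, P', σ, hw1, hw2, hP', hσ, h6, h7⟩ := hfr g
      have hδ : δ σ = δ g := by
        have h8 : σ⁻¹ * g ∈ R.ker := by
          rw [MonoidHom.mem_ker, map_mul, map_inv, h6, inv_mul_cancel]
        have h9 := ker_le hadm h8
        rwa [MonoidHom.mem_ker, map_mul, map_inv, inv_mul_eq_one] at h9
      have hQ' : G.Invariant (δ σ) Q := by
        rw [hδ]
        exact hQ
      have h8 : val ((R σ : GL (Fin n) L) : Matrix (Fin n) (Fin n) L) Q = algebraMap K L (s P' Q) :=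
        (hatt w hw1 P' hP').2 σ hσ Q hQ'
      have h9 : val ((R' σ : GL (Fin n) L') : Matrix (Fin n) (Fin n) L') Q = algebraMap K L' (s P' Q) :=
        (hatt' w hw2 P' hP').2 σ hσ Q hQ'
      have h10 : val ((R' g : GL (Fin n) L') : Matrix (Fin n) (Fin n) L') Q = algebraMap K L' (s P Q) :=
        (hA P hP).2 g hg Q hQ
      rw [← h7, h9] at h10
      have h11 : s P' Q = s P Q := hinj h10
      rw [← h6, h8, h11]
  · refine hatt v ?_
    rintro (h | h)
    · exact hvE h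
    · exact hv1 h

/-- **two `ℓ`-adic representations** -/
theorem artin_of_two (h : IsSystem n E s) (hE : DensityZero E) {ℓ₁ ℓ₂ : ℕ} [hℓ₁ : Fact ℓ₁.Prime]
    [hℓ₂ : Fact ℓ₂.Prime] (hne : ℓ₁ ≠ ℓ₂) {j₁ : K →+* PadicAlgCl ℓ₁} {j₂ : K →+* PadicAlgCl ℓ₂}
    (h₁ : HasLadic G δ E s ℓ₁ j₁) (h₂ : HasLadic G δ E s ℓ₂ j₂) : HasArtin G δ E s := by
  refine artin_union hE (DensityZero.of_finite (finite_primesAbove hℓ₁.out.ne_zero))
    (DensityZero.of_finite (finite_primesAbove hℓ₂.out.ne_zero)) ?_ (artin_of_ladic h hE h₁)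
    (artin_of_ladic h hE h₂)
  rw [Set.disjoint_left]
  intro v hv1 hv2
  obtain ⟨a, b, hab⟩ := Nat.isCoprime_iff_coprime.2 ((Nat.coprime_primes hℓ₁.out hℓ₂.out).2 hne)
  have h2 : (1 : 𝓞 F) ∈ v.asIdeal := by
    have h3 := congrArg (fun z : ℤ => (z : 𝓞 F)) hab
    push_cast at h3
    rw [← h3]
    exact Ideal.add_mem _ (Ideal.mul_mem_left _ _ hv1) (Ideal.mul_mem_left _ _ hv2)
  exact v.isPrime.ne_top ((Ideal.eq_top_iff_one _).2 h2)

/-- **all the `ℓ`-adic representations** -/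
theorem ladic_of_artin (h : HasArtin G δ E s) (ℓ : ℕ) [Fact ℓ.Prime] (j : K →+* PadicAlgCl ℓ) :
    ∃ ρ : Gam F →* GL (Fin n) (PadicAlgCl ℓ), Continuous ρ ∧ Semisimple ρ ∧ IsOpen (ρ.ker : Set (Gam F)) ∧
      Admissible G δ ρ ∧ ∀ v, v ∉ E → MatchesAt G δ ρ v (fun P Q => j (s P Q)) := by
  obtain ⟨L, iL, iA, hfd, R, hR, hadm, hatt⟩ := h
  let _ : Algebra K (PadicAlgCl ℓ) := j.toAlgebra
  let jj : L →ₐ[K] PadicAlgCl ℓ := IsAlgClosed.lift
  have hker : IsOpen ((bc (jj : L →+* PadicAlgCl ℓ) R).ker : Set (Gam F)) := by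
    rw [ker_bc]
    exact hR
  refine ⟨bc (jj : L →+* PadicAlgCl ℓ) R, continuous_of_open _ hker, ss_of_open _ hker, hker,
    admissible_bc _ hadm, fun v hv => ?_⟩
  have h1 := matches_bc (jj : L →+* PadicAlgCl ℓ) (hatt v hv)
  intro P hP
  refine ⟨(h1 P hP).1, fun σ hσ Q hQ => ?_⟩
  rw [(h1 P hP).2 σ hσ Q hQ]
  exact jj.commutes _

/-- the same over the complex numbers -/
theorem complex_of_artin (h : HasArtin G δ E s) (j : K →+* ℂ) :
    ∃ ρ : Gam F →* GL (Fin n) ℂ, IsOpen (ρ.ker : Set (Gam F)) ∧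
      Admissible G δ ρ ∧ ∀ v, v ∉ E → MatchesAt G δ ρ v (fun P Q => j (s P Q)) := by
  obtain ⟨L, iL, iA, hfd, R, hR, hadm, hatt⟩ := h
  let _ : Algebra K ℂ := j.toAlgebra
  let jj : L →ₐ[K] ℂ := IsAlgClosed.lift
  have hker : IsOpen ((bc (jj : L →+* ℂ) R).ker : Set (Gam F)) := by
    rw [ker_bc]
    exact hR
  refine ⟨bc (jj : L →+* ℂ) R, hker, admissible_bc _ hadm, fun v hv => ?_⟩
  have h1 := matches_bc (jj : L →+* ℂ) (hatt v hv)
  intro P hP
  refine ⟨(h1 P hP).1, fun σ hσ Q hQ => ?_⟩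
  rw [(h1 P hP).2 σ hσ Q hQ]
  exact jj.commutes _

end Pool.Agent.U849.DG
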