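import Pool.Agent.U849.DG.Def
import Pool.Agent.R401.Glue

/-!
# Representations of finite groups satisfying polynomial equations: from large rings to finite extensions
-/

set_option autoImplicit false
set_option maxHeartbeats 4000000

namespace Pool.Agent.U849.DG

open Pool.Agent.R401.Glue

theorem val_map {R S : Type*} [CommRing R] [CommRing S] (f : R →+* S) {n : ℕ} (M : Matrix (Fin n) (Fin n) R)
    (Q : Poly n) : val (M.map f) Q = f (val M Q) := by
  unfold val
  exact (MvPolynomial.comp_aeval_apply (R := ℤ) (fun x : Fin n × Fin n => M x.1 x.2) f.toIntAlgHom Q).symm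

theorem val_X {R : Type*} [CommRing R] {n : ℕ} (M : Matrix (Fin n) (Fin n) R) (a b : Fin n) :
    val M (MvPolynomial.X (a, b)) = M a b := by
  unfold val
  rw [MvPolynomial.aeval_X]

theorem val_trace {R : Type*} [CommRing R] {n : ℕ} (M : Matrix (Fin n) (Fin n) R) :
    val M (tracePoly n) = M.trace := by
  unfold val tracePoly
  rw [map_sum]
  simp [Matrix.trace]

/-- coefficients of the characteristic polynomial -/
noncomputable def cpoly (n i : ℕ) : Poly n := (Matrix.charpoly.univ ℤ (Fin n)).coeff i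

theorem val_cpoly {R : Type*} [CommRing R] {n : ℕ} (M : Matrix (Fin n) (Fin n) R) (i : ℕ) :
    val M (cpoly n i) = M.charpoly.coeff i := by
  have h := Matrix.charpoly.univ_map_eval₂Hom (R := ℤ) (S := R) (n := Fin n) (Int.castRingHom R)
    (fun x => M x.1 x.2)
  have h1 := congrArg (fun q => Polynomial.coeff q i) h
  simp only [Polynomial.coeff_map] at h1
  unfold val cpoly
  rw [MvPolynomial.aeval_def]
  exact h1

/-- a representation of a finite group over a `K`-algebra gives one over a finite extension of `K`, with the same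
equations -/
theorem exists_pt {K : Type} [Field K] {Q : Type} [CommRing Q] [Nontrivial Q] [Algebra K Q] {Γ : Type} [Group Γ]
    [Finite Γ] {n : ℕ} (M : Γ →* Matrix (Fin n) (Fin n) Q) (T : Set (Γ × Poly n × K))
    (hT : ∀ t ∈ T, val (M t.1) t.2.1 = algebraMap K Q t.2.2) :
    ∃ (L : Type) (_ : Field L) (_ : Algebra K L), FiniteDimensional K L ∧
      ∃ R : Γ →* GL (Fin n) L, ∀ t ∈ T, val ((R t.1 : GL (Fin n) L) : Matrix (Fin n) (Fin n) L) t.2.1 =
        algebraMap K L t.2.2 := by
  classical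
  let S : Set Q := Set.range fun x : Γ × Fin n × Fin n => M x.1 x.2.1 x.2.2
  have hS : S.Finite := Set.finite_range _
  let A : Subalgebra K Q := Algebra.adjoin K S
  have hA : Algebra.FiniteType K A := by
    rw [← Subalgebra.fg_iff_finiteType]
    exact Subalgebra.fg_def.2 ⟨S, hS, rfl⟩
  have hmem : ∀ γ a b, M γ a b ∈ A := fun γ a b => Algebra.subset_adjoin ⟨(γ, a, b), rfl⟩
  obtain ⟨𝔪, h𝔪⟩ := Ideal.exists_maximal A
  let _ : Field (A ⧸ 𝔪) := Ideal.Quotient.field 𝔪
  let N : Γ → Matrix (Fin n) (Fin n) A := fun γ => Matrix.of fun a b => ⟨M γ a b, hmem γ a b⟩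
  have hN : ∀ γ, (N γ).map A.val.toRingHom = M γ := fun γ => rfl
  have hinj : Function.Injective (fun X : Matrix (Fin n) (Fin n) A => X.map A.val.toRingHom) :=
    Matrix.map_injective Subtype.val_injective
  have hNmul : ∀ γ δ, N (γ * δ) = N γ * N δ := by
    intro γ δ
    apply hinj
    change (N (γ * δ)).map A.val.toRingHom = (N γ * N δ).map A.val.toRingHom
    rw [Matrix.map_mul, hN, hN, hN, map_mul]
  have hNone : N 1 = 1 := by
    apply hinj
    change (N 1).map A.val.toRingHom = (1 : Matrix (Fin n) (Fin n) A).map A.val.toRingHom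
    rw [hN, map_one, Matrix.map_one _ (map_zero _) (map_one _)]
  have hNval : ∀ t ∈ T, val (N t.1) t.2.1 = algebraMap K A t.2.2 := by
    intro t ht
    apply Subtype.val_injective
    have h1 := val_map A.val.toRingHom (N t.1) t.2.1
    rw [hN, hT t ht] at h1
    exact h1.symm
  let q : A →+* A ⧸ 𝔪 := Ideal.Quotient.mk 𝔪
  let R₀ : Γ →* Matrix (Fin n) (Fin n) (A ⧸ 𝔪) :=
    { toFun := fun γ => (N γ).map q
      map_one' := by rw [hNone, Matrix.map_one _ (map_zero _) (map_one _)]
      map_mul' := fun γ δ => by rw [hNmul, Matrix.map_mul] }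
  refine ⟨A ⧸ 𝔪, inferInstance, inferInstance, ?_, R₀.toHomUnits, fun t ht => ?_⟩
  · have : Algebra.FiniteType K (A ⧸ 𝔪) :=
      Algebra.FiniteType.of_surjective (Ideal.Quotient.mkₐ K 𝔪) (Ideal.Quotient.mkₐ_surjective K 𝔪)
    exact finite_of_finite_type_of_isJacobsonRing K (A ⧸ 𝔪)
  · rw [MonoidHom.coe_toHomUnits]
    change val ((N t.1).map q) t.2.1 = _
    rw [val_map, hNval t ht]
    rfl

/-- **Gluing.** -/
theorem exists_glue {K O : Type} [Field K] [CommRing O] [IsDomain O] [Algebra O K]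
    [IsFractionRing O K] {J : Type} [Infinite J] (k : J → Type) [∀ j, Field (k j)]
    (φ : ∀ j, O →+* k j) (hφ : ∀ x : O, x ≠ 0 → {j | φ j x = 0}.Finite)
    {Γ : Type} [Group Γ] [Finite Γ] {n : ℕ} (ρ : ∀ j, Γ →* GL (Fin n) (k j)) (T : Set (Γ × Poly n × O))
    (hT : ∀ t ∈ T, {j | val ((ρ j t.1 : GL (Fin n) (k j)) : Matrix (Fin n) (Fin n) (k j)) t.2.1 ≠
      φ j t.2.2}.Finite) :
    ∃ (L : Type) (_ : Field L) (_ : Algebra K L), FiniteDimensional K L ∧
      ∃ R : Γ →* GL (Fin n) L, ∀ t ∈ T, val ((R t.1 : GL (Fin n) L) : Matrix (Fin n) (Fin n) L) t.2.1 =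
        algebraMap K L (algebraMap O K t.2.2) := by
  classical
  -- the ring
  let Q := (∀ j, k j) ⧸ almostZero k
  let mk : (∀ j, k j) →+* Q := Ideal.Quotient.mk (almostZero k)
  let φ' : O →+* Q := mk.comp (Pi.ringHom φ)
  have hunit : ∀ y : nonZeroDivisors O, IsUnit (φ' y) := by
    intro y
    have hy : (y : O) ≠ 0 := nonZeroDivisors.coe_ne_zero y
    let z : ∀ j, k j := fun j => (φ j y)⁻¹
    refine IsUnit.of_mul_eq_one (mk z) ?_
    change mk (Pi.ringHom φ y) * mk z = 1
    rw [← map_mul, ← map_one mk]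
    refine mk_eq.2 ((hφ y hy).subset fun j hj => ?_)
    by_contra hcon
    exact hj (mul_inv_cancel₀ hcon)
  let ψ : K →+* Q := IsLocalization.lift hunit
  have hψ : ∀ x : O, ψ (algebraMap O K x) = φ' x := fun x => IsLocalization.lift_eq hunit x
  let _ : Algebra K Q := ψ.toAlgebra
  have hψ' : ∀ x : O, algebraMap K Q (algebraMap O K x) = φ' x := hψ
  -- the matrices
  let M : Γ → Matrix (Fin n) (Fin n) (∀ j, k j) := fun γ =>
    Matrix.of fun a b => fun j => ((ρ j γ : GL (Fin n) (k j)) : Matrix (Fin n) (Fin n) (k j)) a b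
  have hMj : ∀ γ j, (M γ).map (Pi.evalRingHom k j) =
      ((ρ j γ : GL (Fin n) (k j)) : Matrix (Fin n) (Fin n) (k j)) := by
    intro γ j
    ext a b
    rfl
  have hMmul : ∀ γ δ, M (γ * δ) = M γ * M δ := by
    intro γ δ
    ext a b j
    have h1 : (M (γ * δ)).map (Pi.evalRingHom k j) = (M γ * M δ).map (Pi.evalRingHom k j) := by
      rw [hMj, map_mul, Units.val_mul, Matrix.map_mul, hMj, hMj]
    exact congrFun (congrFun h1 a) b
  have hMone : M 1 = 1 := by
    ext a b j
    have h1 : (M 1).map (Pi.evalRingHom k j) = (1 : Matrix (Fin n) (Fin n) (∀ j, k j)).map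
        (Pi.evalRingHom k j) := by
      rw [hMj, map_one, Units.val_one, Matrix.map_one _ (map_zero _) (map_one _)]
    exact congrFun (congrFun h1 a) b
  let M' : Γ →* Matrix (Fin n) (Fin n) Q :=
    { toFun := fun γ => (M γ).map mk
      map_one' := by rw [hMone, Matrix.map_one _ (map_zero _) (map_one _)]
      map_mul' := fun γ δ => by rw [hMmul, Matrix.map_mul] }
  obtain ⟨L, iL, iA, hfd, R, hR⟩ := exists_pt (K := K) (Q := Q) M'
    ((fun t : Γ × Poly n × O => (t.1, t.2.1, algebraMap O K t.2.2)) '' T) (by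
    rintro _ ⟨t, ht, rfl⟩
    change val ((M t.1).map mk) t.2.1 = algebraMap K Q (algebraMap O K t.2.2)
    rw [hψ', val_map]
    refine mk_eq.2 ((hT t ht).subset fun j hj => ?_)
    intro h
    apply hj
    have h1 : val (M t.1) t.2.1 j = val ((M t.1).map (Pi.evalRingHom k j)) t.2.1 := by
      rw [val_map]
      rfl
    rw [h1, hMj, h]
    rfl)
  exact ⟨L, iL, iA, hfd, R, fun t ht => hR _ ⟨t, ht, rfl⟩⟩

end Pool.Agent.U849.DG
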